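import Pool.Agent.H109R3.TC.Stmt
import Pool.Agent.Helper583.TCJ13
import Pool.Agent.Helper583.TCJ14

/-!
# The halting set and functions recursive in it
-/

set_option autoImplicit false

namespace Pool.Agent.K9h87.DC

open Pool.Agent.Helper583.TC (orc Red)
open Pool.Agent.Helper583.TC.J13 (tr_comp tr_pair tr_prim tr_prec)
open Nat.Partrec (Code)
open Nat.Partrec.Code

noncomputable section

lemma primrec_pow2 : Primrec fun n : ℕ => 2 ^ n := by
  have h : Primrec fun n : ℕ => Nat.rec (motive := fun _ => ℕ) 1 (fun _ IH => IH * 2) n :=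
    Primrec.nat_rec' (f := fun n : ℕ => n) (g := fun _ : ℕ => 1)
      (h := fun (_ : ℕ) (q : ℕ × ℕ) => q.2 * 2) Primrec.id (Primrec.const 1)
      (Primrec.nat_mul.comp (Primrec.snd.comp Primrec.snd) (Primrec.const 2))
  refine h.of_eq fun n => ?_
  induction n with
  | zero => rfl
  | succ n ih =>
    rw [pow_succ, ← ih]

/-- the characteristic function of a set -/
def chi (A : ℕ → Prop) (n : ℕ) : ℕ :=
  open Classical in if A n then 1 else 0

lemma chi_congr {A B : ℕ → Prop} {n m : ℕ} (h : A n ↔ B m) : chi A n = chi B m := by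
  unfold chi
  by_cases hA : A n
  · rw [if_pos hA, if_pos (h.1 hA)]
  · rw [if_neg hA, if_neg fun hB => hA (h.2 hB)]

lemma chi_eq_one {A : ℕ → Prop} {n : ℕ} : chi A n = 1 ↔ A n := by
  unfold chi
  by_cases hA : A n
  · rw [if_pos hA]
    simp [hA]
  · rw [if_neg hA]
    simp [hA]

lemma chi_eq_zero {A : ℕ → Prop} {n : ℕ} : chi A n = 0 ↔ ¬ A n := by
  unfold chi
  by_cases hA : A n
  · rw [if_pos hA]
    simp [hA]
  · rw [if_neg hA]
    simp [hA]

/-- The halting set `{⟨e, x⟩ : φ_e (x) ↓}`. -/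
def K0 (n : ℕ) : Prop := (eval (Denumerable.ofNat Code n.unpair.1) n.unpair.2).Dom

/-- its approximation at stage `s` -/
def Kst (s n : ℕ) : Bool := (evaln s (Denumerable.ofNat Code n.unpair.1) n.unpair.2).isSome

lemma Kst_mono {s t n : ℕ} (h : s ≤ t) (hs : Kst s n = true) : Kst t n = true := by
  unfold Kst at *
  rw [Option.isSome_iff_exists] at hs ⊢
  obtain ⟨v, hv⟩ := hs
  exact ⟨v, evaln_mono h hv⟩

lemma K0_iff (n : ℕ) : K0 n ↔ ∃ s, Kst s n = true := by
  unfold K0 Kst
  rw [Part.dom_iff_mem]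
  constructor
  · rintro ⟨v, hv⟩
    obtain ⟨k, hk⟩ := evaln_complete.1 hv
    exact ⟨k, Option.isSome_iff_exists.2 ⟨v, hk⟩⟩
  · rintro ⟨k, hk⟩
    obtain ⟨v, hv⟩ := Option.isSome_iff_exists.1 hk
    exact ⟨v, evaln_complete.2 ⟨k, hv⟩⟩

lemma Kst_zero (n : ℕ) : Kst 0 n = false := by
  unfold Kst
  simp [evaln]

lemma primrec_Kst : Primrec₂ Kst := by
  unfold Kst
  have h1 : Primrec fun p : ℕ × ℕ => evaln p.1 (Denumerable.ofNat Code p.2.unpair.1) p.2.unpair.2 :=
    primrec_evaln.comp (Primrec.pair (Primrec.pair Primrec.fst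
      ((Primrec.ofNat Code).comp (Primrec.fst.comp (Primrec.unpair.comp Primrec.snd))))
      (Primrec.snd.comp (Primrec.unpair.comp Primrec.snd)))
  exact Primrec.option_isSome.comp h1

lemma K0_re : REPred K0 := by
  unfold K0
  have h : Partrec fun n : ℕ => eval (Denumerable.ofNat Code n.unpair.1) n.unpair.2 :=
    eval_part.comp ((Primrec.ofNat Code).comp (Primrec.fst.comp Primrec.unpair)).to_comp
      (Primrec.snd.comp Primrec.unpair).to_comp
  exact h.dom_re

lemma K0_not_computable : ¬ ComputablePred K0 := by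
  intro h
  refine ComputablePred.halting_problem 0 ?_
  have h1 : Computable fun c : Code => Nat.pair (Encodable.encode c) 0 :=
    (Primrec₂.natPair.comp Primrec.encode (Primrec.const 0)).to_comp
  obtain ⟨f, hf, hfe⟩ := ComputablePred.computable_iff.1 h
  refine ComputablePred.computable_iff.2 ⟨fun c => f (Nat.pair (Encodable.encode c) 0),
    hf.comp h1, ?_⟩
  funext c
  rw [← show K0 (Nat.pair (Encodable.encode c) 0) = (eval c 0).Dom by
    unfold K0
    rw [Nat.unpair_pair, Denumerable.ofNat_encode], hfe]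

/-- the oracle `0'` -/
def KO : ℕ → ℕ := chi K0

/-- `f` is recursive in the halting set -/
abbrev RI (f : ℕ → ℕ) : Prop := Red f KO

lemma ri_orc : RI KO := Nat.RecursiveIn.oracle _ rfl

lemma ri_comp {f g : ℕ → ℕ} (hf : RI f) (hg : RI g) : RI fun n => f (g n) := tr_comp hf hg

lemma ri_prim {f : ℕ → ℕ} (hf : Primrec f) : RI f := tr_prim (Primrec.nat_iff.1 hf)

lemma ri_pair {f g : ℕ → ℕ} (hf : RI f) (hg : RI g) : RI fun n => Nat.pair (f n) (g n) :=
  tr_pair hf hg

lemma ri_comp₂ {f g : ℕ → ℕ} {F : ℕ → ℕ → ℕ} (hF : Primrec₂ F) (hf : RI f) (hg : RI g) :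
    RI fun n => F (f n) (g n) := by
  have h1 : RI fun z => F z.unpair.1 z.unpair.2 :=
    ri_prim (hF.comp (Primrec.fst.comp Primrec.unpair) (Primrec.snd.comp Primrec.unpair))
  have h2 := ri_comp h1 (ri_pair hf hg)
  simpa only [Nat.unpair_pair] using h2

/-- a `Σ₁` set is recursive in the halting set -/
lemma ri_sigma {R : ℕ → ℕ → Bool} (hR : Computable₂ R) :
    RI (fun n => chi (fun n => ∃ s, R n s = true) n) := by
  have hp : Partrec fun n : ℕ => Nat.rfind fun s => (Part.some (R n s) : Part Bool) :=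
    Partrec.rfind hR.partrec₂
  have hp2 : Nat.Partrec fun n : ℕ => Nat.rfind fun s => (Part.some (R n s) : Part Bool) :=
    Partrec.nat_iff.1 hp
  obtain ⟨c, hc⟩ := exists_code.1 hp2
  have h1 : ∀ n, K0 (Nat.pair (Encodable.encode c) n) ↔ ∃ s, R n s = true := by
    intro n
    unfold K0
    rw [Nat.unpair_pair, Denumerable.ofNat_encode, hc]
    refine Nat.rfind_dom.trans ?_
    constructor
    · rintro ⟨s, hs, -⟩
      exact ⟨s, (Part.mem_some_iff.1 hs).symm⟩
    · rintro ⟨s, hs⟩
      exact ⟨s, Part.mem_some_iff.2 hs.symm, fun {_} _ => trivial⟩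
  have h2 : RI fun n => KO (Nat.pair (Encodable.encode c) n) :=
    ri_comp ri_orc (ri_prim (Primrec₂.natPair.comp (Primrec.const _) Primrec.id))
  have h3 : (fun n => chi (fun n => ∃ s, R n s = true) n)
      = fun n => KO (Nat.pair (Encodable.encode c) n) := by
    funext n
    exact chi_congr (h1 n).symm
  rw [h3]
  exact h2

/-- a c.e. set is the projection of a computable relation -/
lemma sigma_of_re {B : ℕ → Prop} (hB : REPred B) :
    ∃ R : ℕ → ℕ → Bool, Computable₂ R ∧ ∀ n, B n ↔ ∃ s, R n s = true := by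
  have h1 : Partrec fun n : ℕ => (Part.assert (B n) fun _ => Part.some ()).map fun _ => (0 : ℕ) :=
    Partrec.map hB (Computable.const 0).to₂
  obtain ⟨c, hc⟩ := exists_code.1 (Partrec.nat_iff.1 h1)
  refine ⟨fun n s => (evaln s c n).isSome, ?_, fun n => ?_⟩
  · have h2 : Primrec fun p : ℕ × ℕ => evaln p.2 c p.1 :=
      primrec_evaln.comp (Primrec.pair (Primrec.pair Primrec.snd (Primrec.const c)) Primrec.fst)
    exact (Primrec.option_isSome.comp h2).to_comp
  · have h3 : B n ↔ (eval c n).Dom := by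
      rw [hc]
      simp [Part.assert, Part.map]
    rw [h3, Part.dom_iff_mem]
    constructor
    · rintro ⟨v, hv⟩
      obtain ⟨k, hk⟩ := evaln_complete.1 hv
      exact ⟨k, Option.isSome_iff_exists.2 ⟨v, hk⟩⟩
    · rintro ⟨k, hk⟩
      obtain ⟨v, hv⟩ := Option.isSome_iff_exists.1 hk
      exact ⟨v, evaln_complete.2 ⟨k, hv⟩⟩

/-- the least number operator -/
lemma ri_mu {f : ℕ → ℕ} (hf : RI f) {g : ℕ → ℕ}
    (hg : ∀ a, f (Nat.pair a (g a)) = 0 ∧ ∀ n < g a, f (Nat.pair a n) ≠ 0) : RI g := by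
  have h1 := Nat.RecursiveIn.rfind hf
  refine h1.of_eq fun a => ?_
  refine Part.eq_some_iff.2 (Nat.mem_rfind.2 ?_)
  unfold orc
  constructor
  · simp [(hg a).1]
  · intro m hm
    simp [(hg a).2 m hm]

/-- primitive recursion -/
lemma ri_rec {f h : ℕ → ℕ} (hf : RI f) (hh : RI h) :
    RI fun p => Nat.rec (f (Nat.unpair p).1)
      (fun y IH => h (Nat.pair (Nat.unpair p).1 (Nat.pair y IH))) (Nat.unpair p).2 :=
  tr_prec hf hh

lemma red_mono {O : Set (ℕ →. ℕ)} {α β : Type} [Primcodable α] [Primcodable β]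
    {φ : β →. ℕ} {u : α → β} {v : α → ℕ} (hφ : RecursiveIn O φ) (hu : Computable u)
    (hv : Computable v) : RecursiveIn O (fun a => (φ (u a)).map fun _ => v a) := by
  have h1 := Pool.Agent.Helper583.TC.J14.recIn_comp hφ hu
  have h2 : Nat.RecursiveIn O (fun n => Part.bind (Encodable.decode (α := α) n) fun a =>
      (Part.some (v a)).map Encodable.encode) := hv.partrec.recursiveIn (O := O)
  have h3 := Nat.RecursiveIn.pair h1 h2
  have h4 := Nat.RecursiveIn.comp (Nat.RecursiveIn.right (O := O)) h3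
  refine Nat.RecursiveIn.of_eq h4 fun n => ?_
  cases h : (Encodable.decode (α := α) n) with
  | none =>
    ext m
    simp [Seq.seq]
  | some b =>
    ext m
    simp [Seq.seq]
    exact fun _ _ => eq_comm

end

end Pool.Agent.K9h87.DC
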