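import Pool.Agent.K9h87.DC.K

/-!
# Every oracle relative to which the discrete space `ℕ` is categorical computes the halting set
-/

set_option autoImplicit false

namespace Pool.Agent.K9h87.DC

open Pool.Agent.Helper583.TC (orc Red)
open Pool.Agent.Helper583.TT (CMS IsName pre)
open Pool.Agent.H109R3.TC
open Topology Filter

noncomputable section

/-- `e` enters the halting set exactly at stage `s` -/
def ent (e s : ℕ) : Bool := Kst s e && !Kst (s - 1) e

lemma ent_zero (e : ℕ) : ent e 0 = false := by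
  unfold ent
  rw [Kst_zero]
  rfl

lemma ent_unique {e s t : ℕ} (hs : ent e s = true) (ht : ent e t = true) : s = t := by
  have key : ∀ s t : ℕ, ent e s = true → ent e t = true → s < t → False := by
    intro s t hs ht hst
    unfold ent at hs ht
    rw [Bool.and_eq_true] at hs ht
    have h1 := Kst_mono (show s ≤ t - 1 by omega) hs.1
    rw [h1] at ht
    simp at ht
  rcases lt_trichotomy s t with h | h | h
  · exact (key s t hs ht h).elim
  · exact h
  · exact (key t s ht hs h).elim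

lemma exists_ent {e : ℕ} (h : K0 e) {k : ℕ} (hk : Kst k e = false) :
    ∃ s, k < s ∧ ent e s = true := by
  classical
  have h1 := (K0_iff e).1 h
  have h2 : Kst (Nat.find h1) e = true := Nat.find_spec h1
  refine ⟨Nat.find h1, ?_, ?_⟩
  · by_contra hlt
    have := Kst_mono (not_lt.1 hlt) h2
    rw [hk] at this
    exact Bool.noConfusion this
  · unfold ent
    rw [h2]
    have h3 : Nat.find h1 ≠ 0 := by
      intro h0
      rw [h0, Kst_zero] at h2
      exact Bool.noConfusion h2
    have h4 := Nat.find_min h1 (show Nat.find h1 - 1 < Nat.find h1 by omega)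
    simpa using h4

/-- the points of the bad presentation -/
def pt (n : ℕ) : ℝ :=
  2 * (n.unpair.1 : ℝ) + if ent n.unpair.1 n.unpair.2 = true then (1 / 2 : ℝ) ^ n.unpair.2 else 0

lemma pt_mem (n : ℕ) : 2 * (n.unpair.1 : ℝ) ≤ pt n ∧ pt n ≤ 2 * (n.unpair.1 : ℝ) + 1 := by
  unfold pt
  split_ifs
  · have h1 : (0 : ℝ) ≤ (1 / 2) ^ n.unpair.2 := by positivity
    have h2 : (1 / 2 : ℝ) ^ n.unpair.2 ≤ 1 := pow_le_one₀ (by norm_num) (by norm_num)
    constructor <;> linarith
  · constructor <;> linarith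

/-- the set of the points of the bad presentation -/
def PP : Set ℝ := Set.range pt

lemma finite_cluster (e : ℕ) : {x : ℝ | ∃ n : ℕ, n.unpair.1 = e ∧ pt n = x}.Finite := by
  by_cases h : ∃ s, ent e s = true
  · obtain ⟨s, hs⟩ := h
    refine Set.Finite.subset (Set.toFinite {2 * (e : ℝ), 2 * (e : ℝ) + (1 / 2 : ℝ) ^ s}) ?_
    rintro x ⟨n, hn, rfl⟩
    unfold pt
    rw [hn]
    split_ifs with h1
    · rw [ent_unique h1 hs]
      simp
    · simp
  · push Not at h
    refine Set.Finite.subset (Set.toFinite {2 * (e : ℝ)}) ?_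
    rintro x ⟨n, hn, rfl⟩
    unfold pt
    rw [hn, if_neg (h _)]
    simp

lemma finite_ball (x : ℝ) : (PP ∩ Metric.closedBall x 1).Finite := by
  have h : PP ∩ Metric.closedBall x 1
      ⊆ ⋃ e ∈ Finset.range (⌈x + 1⌉₊ + 1), {x : ℝ | ∃ n : ℕ, n.unpair.1 = e ∧ pt n = x} := by
    rintro y ⟨⟨n, rfl⟩, hy⟩
    rw [Metric.mem_closedBall, Real.dist_eq, abs_le] at hy
    have h1 := (pt_mem n).1
    have h2 : (n.unpair.1 : ℝ) ≤ ⌈x + 1⌉₊ := by
      refine le_trans ?_ (Nat.le_ceil _)
      have : (0 : ℝ) ≤ n.unpair.1 := Nat.cast_nonneg _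
      linarith
    simp only [Set.mem_iUnion, Finset.mem_range]
    refine ⟨n.unpair.1, ?_, n, rfl, rfl⟩
    have : n.unpair.1 ≤ ⌈x + 1⌉₊ := by exact_mod_cast h2
    omega
  exact Set.Finite.subset (Set.Finite.biUnion (Finset.finite_toSet _) fun e _ => finite_cluster e) h

lemma PP_closed_discrete : IsClosed PP ∧ DiscreteTopology PP := by
  suffices key : IsClosed PP ∧ IsDiscrete PP from ⟨key.1, key.2.to_subtype⟩
  rw [isClosed_and_discrete_iff]
  intro x
  rw [disjoint_principal_right]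
  have h1 : ((PP ∩ Metric.closedBall x 1) \ {x}).Finite := (finite_ball x).sdiff
  have h2 : ((PP ∩ Metric.closedBall x 1) \ {x})ᶜ ∈ 𝓝 x :=
    h1.isClosed.isOpen_compl.mem_nhds (by simp)
  have h3 : Metric.closedBall x 1 ∈ 𝓝 x := Metric.closedBall_mem_nhds x one_pos
  rw [mem_nhdsWithin_iff_exists_mem_nhds_inter]
  refine ⟨_, Filter.inter_mem h2 h3, ?_⟩
  rintro y ⟨⟨hy1, hy2⟩, hy3⟩ hy4
  exact hy1 ⟨⟨hy4, hy2⟩, hy3⟩

lemma PP_infinite : PP.Infinite := by
  have h : Set.range (fun e : ℕ => 2 * (e : ℝ)) ⊆ PP := by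
    rintro _ ⟨e, rfl⟩
    refine ⟨Nat.pair e 0, ?_⟩
    unfold pt
    rw [Nat.unpair_pair]
    simp [ent_zero]
  refine Set.Infinite.mono h (Set.infinite_range_of_injective ?_)
  intro a b hab
  have : (2 * (a : ℝ)) = 2 * b := hab
  have h2 : (a : ℝ) = b := by linarith
  exact_mod_cast h2

/-- the numerators -/
def An (n : ℕ) : ℕ := 2 * n.unpair.1 * 2 ^ n.unpair.2 + (ent n.unpair.1 n.unpair.2).toNat

lemma pt_eq (n : ℕ) : pt n = (An n : ℝ) / 2 ^ n.unpair.2 := by
  unfold pt An
  rw [eq_div_iff (by positivity)]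
  split_ifs with h
  · rw [h]
    push_cast
    rw [add_mul, one_div, inv_pow, inv_mul_cancel₀ (by positivity)]
    simp
  · rw [Bool.not_eq_true] at h
    rw [h]
    push_cast
    simp

/-- approximations of the distances -/
def qq (z : ℕ × ℕ × ℕ) : ℕ :=
  ((An z.1 * 2 ^ z.2.1.unpair.2 - An z.2.1 * 2 ^ z.1.unpair.2)
    + (An z.2.1 * 2 ^ z.1.unpair.2 - An z.1 * 2 ^ z.2.1.unpair.2)) * 2 ^ z.2.2
    / 2 ^ (z.1.unpair.2 + z.2.1.unpair.2)

lemma qq_spec (i j k : ℕ) : |dist (pt i) (pt j) - (qq (i, j, k) : ℝ) / 2 ^ k| ≤ 1 / 2 ^ k := by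
  set a := An i * 2 ^ j.unpair.2 with ha
  set b := An j * 2 ^ i.unpair.2 with hb
  set D := 2 ^ (i.unpair.2 + j.unpair.2) with hD
  have hDpos : 0 < D := by positivity
  have hDR : (0 : ℝ) < D := by exact_mod_cast hDpos
  have h1 : dist (pt i) (pt j) = (((a - b) + (b - a) : ℕ) : ℝ) / D := by
    rw [Real.dist_eq, pt_eq, pt_eq]
    have h2 : (An i : ℝ) / 2 ^ i.unpair.2 - (An j : ℝ) / 2 ^ j.unpair.2 = ((a : ℝ) - b) / D := by
      rw [ha, hb, hD]
      push_cast
      rw [pow_add]
      field_simp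
    rw [h2, abs_div, abs_of_pos hDR]
    congr 1
    rcases le_total a b with h | h
    · rw [Nat.sub_eq_zero_of_le h, zero_add, Nat.cast_sub h, abs_of_nonpos]
      · ring
      · have : (a : ℝ) ≤ b := by exact_mod_cast h
        linarith
    · rw [Nat.sub_eq_zero_of_le h, add_zero, Nat.cast_sub h, abs_of_nonneg]
      have : (b : ℝ) ≤ a := by exact_mod_cast h
      linarith
  have hq : qq (i, j, k) = ((a - b) + (b - a)) * 2 ^ k / D := rfl
  rw [h1, hq]
  set n := (a - b) + (b - a) with hn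
  have h3 : ((n * 2 ^ k / D : ℕ) : ℝ) ≤ (n : ℝ) * 2 ^ k / D := by
    have := Nat.cast_div_le (α := ℝ) (m := n * 2 ^ k) (n := D)
    push_cast at this ⊢
    exact this
  have h4 : (n : ℝ) * 2 ^ k / D < ((n * 2 ^ k / D : ℕ) : ℝ) + 1 := by
    rw [div_lt_iff₀ hDR]
    have := Nat.lt_div_mul_add hDpos (a := n * 2 ^ k)
    have h5 : n * 2 ^ k < (n * 2 ^ k / D + 1) * D := this.trans_le (Nat.succ_mul _ _).ge
    exact_mod_cast h5
  have h2k : (0 : ℝ) < 2 ^ k := by positivity
  have h6 : (n : ℝ) / D = ((n : ℝ) * 2 ^ k / D) / 2 ^ k := by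
    field_simp
  rw [h6, ← sub_div, abs_div, abs_of_pos h2k]
  refine div_le_div_of_nonneg_right ?_ h2k.le
  rw [abs_le]
  constructor <;> linarith

lemma primrec_toNat' : Primrec Bool.toNat := Primrec.dom_finite _

lemma primrec_ent : Primrec₂ ent := by
  unfold ent
  have h1 : Primrec fun p : ℕ × ℕ => Kst p.2 p.1 := primrec_Kst.comp Primrec.snd Primrec.fst
  have h2 : Primrec fun p : ℕ × ℕ => Kst (p.2 - 1) p.1 :=
    primrec_Kst.comp (Primrec.nat_sub.comp Primrec.snd (Primrec.const 1)) Primrec.fst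
  exact Primrec.and.comp h1 (Primrec.not.comp h2)

lemma primrec_An : Primrec An := by
  unfold An
  have h1 : Primrec fun n : ℕ => n.unpair.1 := Primrec.fst.comp Primrec.unpair
  have h2 : Primrec fun n : ℕ => n.unpair.2 := Primrec.snd.comp Primrec.unpair
  exact Primrec.nat_add.comp
    (Primrec.nat_mul.comp (Primrec.nat_mul.comp (Primrec.const 2) h1) (primrec_pow2.comp h2))
    (primrec_toNat'.comp (primrec_ent.comp h1 h2))

lemma primrec_qq : Primrec qq := by
  unfold qq
  have z1 : Primrec fun z : ℕ × ℕ × ℕ => z.1 := Primrec.fst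
  have z2 : Primrec fun z : ℕ × ℕ × ℕ => z.2.1 := Primrec.fst.comp Primrec.snd
  have z3 : Primrec fun z : ℕ × ℕ × ℕ => z.2.2 := Primrec.snd.comp Primrec.snd
  have s1 : Primrec fun z : ℕ × ℕ × ℕ => z.1.unpair.2 := Primrec.snd.comp (Primrec.unpair.comp z1)
  have s2 : Primrec fun z : ℕ × ℕ × ℕ => z.2.1.unpair.2 := Primrec.snd.comp (Primrec.unpair.comp z2)
  have a : Primrec fun z : ℕ × ℕ × ℕ => An z.1 * 2 ^ z.2.1.unpair.2 :=
    Primrec.nat_mul.comp (primrec_An.comp z1) (primrec_pow2.comp s2)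
  have b : Primrec fun z : ℕ × ℕ × ℕ => An z.2.1 * 2 ^ z.1.unpair.2 :=
    Primrec.nat_mul.comp (primrec_An.comp z2) (primrec_pow2.comp s1)
  exact Primrec.nat_div.comp (Primrec.nat_mul.comp
    (Primrec.nat_add.comp (Primrec.nat_sub.comp a b) (Primrec.nat_sub.comp b a))
    (primrec_pow2.comp z3)) (primrec_pow2.comp (Primrec.nat_add.comp s1 s2))

/-- the bad presentation of the discrete space `ℕ` -/
def Bad : CMS :=
  haveI : CompleteSpace PP := PP_closed_discrete.1.completeSpace_coe
  { Y := PP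
    c := fun n => ⟨pt n, n, rfl⟩
    dense := by
      refine Function.Surjective.denseRange ?_
      rintro ⟨_, n, rfl⟩
      exact ⟨n, rfl⟩
    comp := ⟨qq, primrec_qq.to_comp, fun i j k => qq_spec i j k⟩ }

/-- the standard presentation of the discrete space `ℕ` -/
def Std : CMS where
  Y := ℕ
  c := id
  dense := Function.Surjective.denseRange Function.surjective_id
  comp := by
    refine ⟨fun z => ((z.1 - z.2.1) + (z.2.1 - z.1)) * 2 ^ z.2.2, ?_, ?_⟩
    · have z1 : Primrec fun z : ℕ × ℕ × ℕ => z.1 := Primrec.fst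
      have z2 : Primrec fun z : ℕ × ℕ × ℕ => z.2.1 := Primrec.fst.comp Primrec.snd
      have z3 : Primrec fun z : ℕ × ℕ × ℕ => z.2.2 := Primrec.snd.comp Primrec.snd
      exact (Primrec.nat_mul.comp (Primrec.nat_add.comp (Primrec.nat_sub.comp z1 z2)
        (Primrec.nat_sub.comp z2 z1)) (primrec_pow2.comp z3)).to_comp
    · intro i j k
      have h1 : dist (id i) (id j) = (((i - j) + (j - i) : ℕ) : ℝ) := by
        rw [id, id, Nat.dist_eq]
        rcases le_total i j with h | h
        · rw [Nat.sub_eq_zero_of_le h, zero_add, Nat.cast_sub h, abs_of_nonpos]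
          · ring
          · have : (i : ℝ) ≤ j := by exact_mod_cast h
            linarith
        · rw [Nat.sub_eq_zero_of_le h, add_zero, Nat.cast_sub h, abs_of_nonneg]
          have : (j : ℝ) ≤ i := by exact_mod_cast h
          linarith
      rw [h1]
      push_cast
      rw [mul_div_assoc, div_self (by positivity), mul_one, sub_self, abs_zero]
      positivity

lemma Std_homeo : Nonempty (Std.Y ≃ₜ ℕ) := ⟨Homeomorph.refl ℕ⟩

lemma Bad_homeo : Nonempty (Bad.Y ≃ₜ ℕ) := by
  have hd : DiscreteTopology PP := PP_closed_discrete.2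
  have hc : Countable PP := (Set.countable_range pt).to_subtype
  have hi : Infinite PP := PP_infinite.to_subtype
  obtain ⟨e⟩ := nonempty_equiv_of_countable (α := PP) (β := ℕ)
  exact ⟨(⟨e, continuous_of_discreteTopology, continuous_of_discreteTopology⟩ : PP ≃ₜ ℕ)⟩

/-- Every oracle relative to which the discrete space `ℕ` is categorical computes the halting
set. -/
theorem lower {a : ℕ → ℕ} (hcat : Cat ℕ a) : Red KO a := by
  obtain ⟨f, φ, hφ, hφ2⟩ := hcat Bad Std Bad_homeo Std_homeo
  have hu : Computable fun p : ℕ × ℕ => (List.replicate p.2 (Nat.pair p.1 0), (1 : ℕ)) := by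
    have h1 : Primrec fun p : ℕ × ℕ => (List.range p.2).map fun _ => Nat.pair p.1 0 :=
      Primrec.list_map (Primrec.list_range.comp Primrec.snd)
        (Primrec₂.natPair.comp (Primrec.fst.comp Primrec.fst) (Primrec.const 0))
    refine ((h1.of_eq fun p => ?_).pair (Primrec.const 1)).to_comp
    rw [List.map_const', List.length_range]
  have hv : Computable fun p : ℕ × ℕ => (Kst p.2 p.1).toNat :=
    (primrec_toNat'.comp (primrec_Kst.comp Primrec.snd Primrec.fst)).to_comp
  obtain ⟨G, hG, hG1, hG2⟩ := Pool.Agent.Helper583.TC.J2.select (red_mono hφ hu hv)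
  refine hG.of_eq fun e => ?_
  have hpre : ∀ k, pre (fun _ : ℕ => Nat.pair e 0) k = List.replicate k (Nat.pair e 0) := by
    intro k
    unfold pre
    rw [List.map_const', List.length_range]
  obtain ⟨q, hq, hq2⟩ := hφ2 (Bad.c (Nat.pair e 0)) (fun _ => Nat.pair e 0) (fun j => by
    rw [dist_self]; positivity)
  have key : ∀ k m, m ∈ φ (List.replicate k (Nat.pair e 0), 1) → (Kst k e).toNat = KO e := by
    intro k m hm
    by_cases hk : Kst k e = true
    · rw [hk]
      exact (chi_eq_one.2 ((K0_iff e).2 ⟨k, hk⟩)).symm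
    rw [Bool.not_eq_true] at hk
    rw [hk]
    refine (chi_eq_zero.2 fun hK => ?_).symm
    obtain ⟨s, hks, hs⟩ := exists_ent hK hk
    have hx0 : pt (Nat.pair e 0) = 2 * e := by
      unfold pt
      rw [Nat.unpair_pair]
      simp [ent_zero]
    have hxs : pt (Nat.pair e s) = 2 * e + (1 / 2) ^ s := by
      unfold pt
      rw [Nat.unpair_pair]
      simp [hs]
    have hdist : dist (Bad.c (Nat.pair e 0)) (Bad.c (Nat.pair e s)) = (1 / 2) ^ s := by
      change dist (pt (Nat.pair e 0)) (pt (Nat.pair e s)) = _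
      rw [hx0, hxs, Real.dist_eq, show 2 * (e : ℝ) - (2 * e + (1 / 2) ^ s) = -(1 / 2) ^ s by ring,
        abs_neg, abs_of_pos (by positivity)]
    have hname : IsName Bad (fun j => if j < k then Nat.pair e 0 else Nat.pair e s)
        (Bad.c (Nat.pair e s)) := by
      intro j
      simp only
      split_ifs with hj
      · rw [hdist, one_div_pow]
        exact one_div_le_one_div_of_le (by positivity) (pow_le_pow_right₀ one_le_two (by omega))
      · rw [dist_self]
        positivity
    obtain ⟨q', hq', hq2'⟩ := hφ2 _ _ hname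
    have hpre' : pre (fun j => if j < k then Nat.pair e 0 else Nat.pair e s) k
        = List.replicate k (Nat.pair e 0) := by
      rw [← hpre k]
      unfold pre
      refine List.map_congr_left fun j hj => ?_
      rw [List.mem_range] at hj
      rw [if_pos hj]
    have h1 : m = q' 1 := (hq2' 1).2 k m (by rw [hpre']; exact hm)
    have h2 : m = q 1 := (hq2 1).2 k m (by rw [hpre]; exact hm)
    have hsame : ∀ x : Std.Y, dist (Std.c m) x ≤ 1 / 2 ^ 1 → Std.c m = x := by
      intro x hx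
      change dist (m : ℕ) (x : ℕ) ≤ _ at hx
      change m = x
      by_contra hne
      have h3 : (1 : ℝ) ≤ dist (m : ℕ) (x : ℕ) := Nat.pairwise_one_le_dist hne
      norm_num at hx
      linarith
    have h4 : Std.c m = f (Bad.c (Nat.pair e 0)) := hsame _ (by rw [h2]; exact hq 1)
    have h5 : Std.c m = f (Bad.c (Nat.pair e s)) := hsame _ (by rw [h1]; exact hq' 1)
    have h6 := f.injective (h4.symm.trans h5)
    rw [h6, dist_self] at hdist
    have : (0 : ℝ) < (1 / 2) ^ s := by positivity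
    linarith
  obtain ⟨⟨k, hk⟩, -⟩ := hq2 1
  rw [hpre] at hk
  have hdom : (G e).Dom := by
    refine hG2 e k ?_
    simp only [Part.map_Dom]
    exact Part.dom_iff_mem.2 ⟨_, hk⟩
  obtain ⟨v, hv1⟩ := Part.dom_iff_mem.1 hdom
  obtain ⟨k', hk'⟩ := hG1 e v hv1
  simp only [Part.mem_map_iff] at hk'
  obtain ⟨m, hm, hmv⟩ := hk'
  have h7 := key k' m hm
  rw [hmv] at h7
  show G e = Part.some (KO e)
  rw [← h7]
  exact Part.eq_some_iff.2 hv1

end

end Pool.Agent.K9h87.DC
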