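import Pool.Agent.K9h87.DC.K

/-!
# The discrete space `ℕ` is categorical relative to the halting set
-/

set_option autoImplicit false

namespace Pool.Agent.K9h87.DC

open Pool.Agent.Helper583.TC (orc Red)
open Pool.Agent.Helper583.TT (CMS IsName pre)
open Pool.Agent.H109R3.TC
open Pool.Agent.Helper583.TC.J2 (srchO srchO_some srchO_ne primrec_srchO rec_pre)
open Topology Filter

noncomputable section

/-- one step of the search of the functional -/
def stepO (z : List ℕ × List ℕ) (j : ℕ) : Option ℕ :=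
  if z.2.getD j 0 < z.1.length ∧ (z.1.getD (z.2.getD j 0) 0).unpair.1 ≤ j
  then some (z.1.getD (z.2.getD j 0) 0).unpair.2 else none

lemma primrec_stepO : Primrec₂ stepO := by
  unfold stepO
  have hi : Primrec fun p : (List ℕ × List ℕ) × ℕ => p.1.2.getD p.2 0 :=
    (Primrec.list_getD 0).comp (Primrec.snd.comp Primrec.fst) Primrec.snd
  have hu : Primrec fun p : (List ℕ × List ℕ) × ℕ => p.1.1.getD (p.1.2.getD p.2 0) 0 :=
    (Primrec.list_getD 0).comp (Primrec.fst.comp Primrec.fst) hi
  have hc : PrimrecPred fun p : (List ℕ × List ℕ) × ℕ =>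
      p.1.2.getD p.2 0 < p.1.1.length ∧ (p.1.1.getD (p.1.2.getD p.2 0) 0).unpair.1 ≤ p.2 :=
    (Primrec.nat_lt.comp hi (Primrec.list_length.comp (Primrec.fst.comp Primrec.fst))).and
      (Primrec.nat_le.comp (Primrec.fst.comp (Primrec.unpair.comp hu)) Primrec.snd)
  exact Primrec.ite hc (Primrec.option_some.comp (Primrec.snd.comp (Primrec.unpair.comp hu)))
    (Primrec.const none)

lemma getD_pre {A : Type} (x : ℕ → A) (n i : ℕ) (d : A) (h : i < n) :
    (pre x n).getD i d = x i := by
  unfold pre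
  rw [List.getD_eq_getElem?_getD, List.getElem?_map, List.getElem?_range h]
  rfl

lemma length_pre' {A : Type} (x : ℕ → A) (n : ℕ) : (pre x n).length = n := by
  unfold pre
  rw [List.length_map, List.length_range]

/-- a map between discrete presentations given by isolation radii and images -/
lemma compMap_of {M N : CMS} {a : ℕ → ℕ} {h : M.Y → N.Y} {r t : ℕ → ℕ} {ρ τ : M.Y → ℕ}
    (hr : ∀ i, r i = ρ (M.c i)) (ht : ∀ i, t i = τ (M.c i))
    (hτ : ∀ x, N.c (τ x) = h x)
    (hρ : ∀ x z : M.Y, dist x z ≤ 1 / 2 ^ ρ x → x = z)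
    (hy : Red (fun i => Nat.pair (r i) (t i)) a) : CompMapIn a M N h := by
  set y : ℕ → ℕ := fun i => Nat.pair (r i) (t i) with hydef
  have hΦ : Partrec fun z : List ℕ × List ℕ × ℕ =>
      (Part.ofOption (srchO (stepO (z.1, z.2.1)) z.2.1.length) : Part ℕ) := by
    have h1 : Primrec fun z : List ℕ × List ℕ × ℕ => srchO (stepO (z.1, z.2.1)) z.2.1.length := by
      refine primrec_srchO (α := List ℕ × List ℕ × ℕ) (f := fun z j => stepO (z.1, z.2.1) j) ?_
        (Primrec.list_length.comp (Primrec.fst.comp Primrec.snd))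
      exact primrec_stepO.comp (Primrec.pair (Primrec.fst.comp Primrec.fst)
        (Primrec.fst.comp (Primrec.snd.comp Primrec.fst))) Primrec.snd
    exact h1.to_comp.ofOption
  refine ⟨_, rec_pre hy hΦ, fun x p hp => ⟨fun _ => τ x, fun j => ?_, fun n => ?_⟩⟩
  · rw [hτ, dist_self]
    positivity
  have hstep : ∀ k j m, j < k → stepO (pre y k, pre p k) j = some m → m = τ x := by
    intro k j m hj hm
    unfold stepO at hm
    rw [getD_pre p k j 0 hj, length_pre'] at hm
    split_ifs at hm with hc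
    rw [getD_pre y k _ 0 hc.1] at hm hc
    simp only [hydef, Nat.unpair_pair, Option.some.injEq] at hm hc
    have h1 : M.c (p j) = x := by
      refine hρ _ _ ((hp j).trans ?_)
      rw [← hr]
      exact one_div_le_one_div_of_le (by positivity) (pow_le_pow_right₀ one_le_two hc.2)
    rw [← hm, ht, h1]
  have hsound : ∀ k m, m ∈ (Part.ofOption (srchO (stepO (Pool.Agent.Helper583.TC.pre y
      (pre p k).length, pre p k)) (pre p k).length) : Part ℕ) → m = τ x := by
    intro k m hm
    rw [Part.mem_ofOption] at hm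
    obtain ⟨j, hj, hj2⟩ := srchO_some _ _ _ hm
    rw [length_pre'] at hj hj2
    exact hstep k j m hj hj2
  refine ⟨?_, fun k m hm => hsound k m hm⟩
  have hx : M.c (p (ρ x)) = x := (hρ x _ (by rw [dist_comm]; exact hp _)).symm
  set k := max (p (ρ x)) (ρ x) + 1 with hk
  have h1 : p (ρ x) < k := by omega
  have h2 : ρ x < k := by omega
  have h3 : stepO (Pool.Agent.Helper583.TC.pre y (pre p k).length, pre p k) (ρ x)
      = some (τ x) := by
    rw [length_pre']
    change stepO (pre y k, pre p k) (ρ x) = _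
    unfold stepO
    rw [getD_pre p k _ 0 h2, length_pre', getD_pre y k _ 0 h1]
    have hc : p (ρ x) < k ∧ (y (p (ρ x))).unpair.1 ≤ ρ x := by
      refine ⟨h1, ?_⟩
      simp only [hydef, Nat.unpair_pair, hr, hx]
      exact le_rfl
    rw [if_pos hc]
    simp only [hydef, Nat.unpair_pair, ht, hx]
  obtain ⟨v, hv⟩ := srchO_ne (stepO (Pool.Agent.Helper583.TC.pre y (pre p k).length, pre p k))
    (pre p k).length (ρ x) (τ x) (by rw [length_pre']; exact h2) h3
  refine ⟨k, ?_⟩
  have hmem : v ∈ (Part.ofOption (srchO (stepO (Pool.Agent.Helper583.TC.pre y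
      (pre p k).length, pre p k)) (pre p k).length) : Part ℕ) := Part.mem_ofOption.2 hv
  have hv2 : v = τ x := hsound k v hmem
  rw [← hv2]
  exact hmem

/-! ### Data of a presentation, recursive in the halting set -/

section Data

variable (M : CMS)

/-- `1` if the two special points are different -/
def neq (z : ℕ) : ℕ := chi (fun z => M.c z.unpair.1 ≠ M.c z.unpair.2) z

/-- `1` if the ball with the radius `2 / 2 ^ k` around the special point contains another point -/
def nis (z : ℕ) : ℕ :=
  chi (fun z => ∃ j, 0 < dist (M.c z.unpair.1) (M.c j) ∧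
    dist (M.c z.unpair.1) (M.c j) < 2 / 2 ^ z.unpair.2) z

lemma dist_pos_of {q : ℕ × ℕ × ℕ → ℕ}
    (hq : ∀ i j k, |dist (M.c i) (M.c j) - (q (i, j, k) : ℝ) / 2 ^ k| ≤ 1 / 2 ^ k) {i j s : ℕ}
    (h : 1 < q (i, j, s)) : 0 < dist (M.c i) (M.c j) := by
  have h1 := (abs_le.1 (hq i j s)).1
  have h2 : (1 : ℝ) < q (i, j, s) := by exact_mod_cast h
  have h3 : (1 : ℝ) / 2 ^ s < q (i, j, s) / 2 ^ s := by
    rw [div_lt_div_iff_of_pos_right (by positivity)]
    exact h2
  linarith

lemma exists_of_dist_pos {q : ℕ × ℕ × ℕ → ℕ}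
    (hq : ∀ i j k, |dist (M.c i) (M.c j) - (q (i, j, k) : ℝ) / 2 ^ k| ≤ 1 / 2 ^ k) {i j : ℕ}
    (h : 0 < dist (M.c i) (M.c j)) : ∃ s, 1 < q (i, j, s) := by
  obtain ⟨s, hs⟩ := exists_nat_gt (2 / dist (M.c i) (M.c j))
  have h1 : (s : ℝ) < 2 ^ s := by exact_mod_cast s.lt_two_pow_self
  refine ⟨s, ?_⟩
  have h2 := (abs_le.1 (hq i j s)).2
  rw [div_lt_iff₀ h] at hs
  have h3 : 2 < 2 ^ s * dist (M.c i) (M.c j) := hs.trans (mul_lt_mul_of_pos_right h1 h)
  have h4 : (2 : ℝ) ^ s * dist (M.c i) (M.c j) ≤ q (i, j, s) + 1 := by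
    have h5 : dist (M.c i) (M.c j) ≤ (q (i, j, s) + 1) / 2 ^ s := by
      rw [add_div]
      linarith
    rw [le_div_iff₀ (by positivity)] at h5
    linarith
  have h6 : (1 : ℝ) < q (i, j, s) := by linarith
  exact_mod_cast h6

lemma ri_neq : RI (neq M) := by
  obtain ⟨q, hq, hqs⟩ := M.comp
  have hR : Computable₂ fun z s : ℕ => decide (1 < q (z.unpair.1, z.unpair.2, s)) := by
    have h1 : Computable fun p : ℕ × ℕ => q (p.1.unpair.1, p.1.unpair.2, p.2) :=
      hq.comp (Computable.pair (Primrec.fst.comp (Primrec.unpair.comp Primrec.fst)).to_comp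
        (Computable.pair (Primrec.snd.comp (Primrec.unpair.comp Primrec.fst)).to_comp
          Computable.snd))
    have h2 : Computable fun n : ℕ => decide (1 < n) :=
      (Primrec.nat_lt.decide.comp (Primrec.const 1) Primrec.id).to_comp
    exact h2.comp h1
  have h := ri_sigma hR
  have he : neq M = fun n => chi (fun n => ∃ s, decide (1 < q (n.unpair.1, n.unpair.2, s)) = true) n := by
    funext z
    refine chi_congr ?_
    rw [← dist_pos]
    simp only [decide_eq_true_eq]
    exact ⟨fun h => exists_of_dist_pos M hqs h, fun ⟨s, hs⟩ => dist_pos_of M hqs hs⟩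
  rw [he]
  exact h

/-- a decidable test -/
def lt1 (n : ℕ) : Bool := decide (1 < n)

/-- a decidable test -/
def lt2 (u : ℕ × ℕ × ℕ) : Bool := decide ((u.1 + 1) * u.2.1 < 2 * u.2.2)

omit M in
lemma primrec_lt1 : Primrec lt1 := Primrec.nat_lt.decide.comp (Primrec.const 1) Primrec.id

omit M in
lemma primrec_lt2 : Primrec lt2 :=
  Primrec.nat_lt.decide.comp
    (Primrec.nat_mul.comp (Primrec.nat_add.comp Primrec.fst (Primrec.const 1))
      (Primrec.fst.comp Primrec.snd))
    (Primrec.nat_mul.comp (Primrec.const 2) (Primrec.snd.comp Primrec.snd))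

lemma ri_nis : RI (nis M) := by
  obtain ⟨q, hq, hqs⟩ := M.comp
  have hR : Computable₂ fun z w : ℕ =>
      (lt1 (q (z.unpair.1, w.unpair.1, w.unpair.2.unpair.1)) &&
        lt2 (q (z.unpair.1, w.unpair.1, w.unpair.2.unpair.2), 2 ^ z.unpair.2,
          2 ^ w.unpair.2.unpair.2)) := by
    have z1 : Primrec fun p : ℕ × ℕ => p.1.unpair.1 :=
      Primrec.fst.comp (Primrec.unpair.comp Primrec.fst)
    have z2 : Primrec fun p : ℕ × ℕ => p.1.unpair.2 :=
      Primrec.snd.comp (Primrec.unpair.comp Primrec.fst)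
    have w1 : Primrec fun p : ℕ × ℕ => p.2.unpair.1 :=
      Primrec.fst.comp (Primrec.unpair.comp Primrec.snd)
    have w2 : Primrec fun p : ℕ × ℕ => p.2.unpair.2 :=
      Primrec.snd.comp (Primrec.unpair.comp Primrec.snd)
    have w21 : Primrec fun p : ℕ × ℕ => p.2.unpair.2.unpair.1 :=
      Primrec.fst.comp (Primrec.unpair.comp w2)
    have w22 : Primrec fun p : ℕ × ℕ => p.2.unpair.2.unpair.2 :=
      Primrec.snd.comp (Primrec.unpair.comp w2)
    have h1 : Computable fun p : ℕ × ℕ =>
        q (p.1.unpair.1, p.2.unpair.1, p.2.unpair.2.unpair.1) :=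
      hq.comp (Computable.pair z1.to_comp (Computable.pair w1.to_comp w21.to_comp))
    have h2 : Computable fun p : ℕ × ℕ =>
        q (p.1.unpair.1, p.2.unpair.1, p.2.unpair.2.unpair.2) :=
      hq.comp (Computable.pair z1.to_comp (Computable.pair w1.to_comp w22.to_comp))
    have e1 : Computable fun p : ℕ × ℕ => 2 ^ p.1.unpair.2 := (primrec_pow2.comp z2).to_comp
    have e2 : Computable fun p : ℕ × ℕ => 2 ^ p.2.unpair.2.unpair.2 :=
      (primrec_pow2.comp w22).to_comp
    have h5 := primrec_lt2.to_comp.comp (Computable.pair h2 (Computable.pair e1 e2))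
    have h6 := primrec_lt1.to_comp.comp h1
    exact (Primrec.and.to_comp).comp h6 h5
  have h := ri_sigma hR
  have he : nis M = fun n => chi (fun n => ∃ w : ℕ,
      (lt1 (q (n.unpair.1, w.unpair.1, w.unpair.2.unpair.1)) &&
        lt2 (q (n.unpair.1, w.unpair.1, w.unpair.2.unpair.2), 2 ^ n.unpair.2,
          2 ^ w.unpair.2.unpair.2)) = true) n := by
    funext z
    refine chi_congr ?_
    simp only [Bool.and_eq_true, lt1, lt2, decide_eq_true_eq]
    set i := z.unpair.1 with hi
    set k := z.unpair.2 with hk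
    constructor
    · rintro ⟨j, h1, h2⟩
      obtain ⟨s, hs⟩ := exists_of_dist_pos M hqs h1
      have h3 : 0 < 2 - dist (M.c i) (M.c j) * 2 ^ k := by
        rw [lt_div_iff₀ (by positivity)] at h2
        linarith
      obtain ⟨m, hm⟩ := exists_nat_gt (2 * 2 ^ k / (2 - dist (M.c i) (M.c j) * 2 ^ k))
      have h4 : (m : ℝ) < 2 ^ m := by exact_mod_cast m.lt_two_pow_self
      refine ⟨Nat.pair j (Nat.pair s m), ?_⟩
      simp only [Nat.unpair_pair]
      refine ⟨hs, ?_⟩
      rw [div_lt_iff₀ h3] at hm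
      have h5 := hm.trans (mul_lt_mul_of_pos_right h4 h3)
      have h6 := (abs_le.1 (hqs i j m)).1
      have h7 : (q (i, j, m) : ℝ) ≤ 2 ^ m * dist (M.c i) (M.c j) + 1 := by
        have h8 : (q (i, j, m) : ℝ) / 2 ^ m ≤ dist (M.c i) (M.c j) + 1 / 2 ^ m := by linarith
        rw [div_le_iff₀ (by positivity), add_mul, one_div_mul_cancel (by positivity)] at h8
        linarith
      have h9 : ((q (i, j, m) : ℝ) + 1) * 2 ^ k < 2 * 2 ^ m := by
        have h10 : ((q (i, j, m) : ℝ) + 1) * 2 ^ k
            ≤ (2 ^ m * dist (M.c i) (M.c j) + 2) * 2 ^ k :=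
          mul_le_mul_of_nonneg_right (by linarith) (by positivity)
        nlinarith
      exact_mod_cast h9
    · rintro ⟨w, h1, h2⟩
      refine ⟨w.unpair.1, dist_pos_of M hqs h1, ?_⟩
      set j := w.unpair.1 with hj
      set m := w.unpair.2.unpair.2 with hm
      have h3 : ((q (i, j, m) : ℝ) + 1) * 2 ^ k < 2 * 2 ^ m := by exact_mod_cast h2
      have h4 := (abs_le.1 (hqs i j m)).2
      have h5 : dist (M.c i) (M.c j) ≤ (q (i, j, m) + 1) / 2 ^ m := by
        rw [add_div]
        linarith
      refine h5.trans_lt ?_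
      rw [div_lt_div_iff₀ (by positivity) (by positivity)]
      exact h3
  rw [he]
  exact h

variable [Infinite M.Y] [DiscreteTopology M.Y]

omit [Infinite M.Y] in
lemma surj_c : Function.Surjective M.c := by
  intro x
  obtain ⟨i, hi⟩ := M.dense.exists_mem_open (isOpen_discrete {x}) ⟨x, rfl⟩
  exact ⟨i, hi⟩

omit [Infinite M.Y] in
lemma exists_iso (x : M.Y) : ∃ k : ℕ, ∀ z : M.Y, dist x z < 2 / 2 ^ k → x = z := by
  obtain ⟨ε, hε, hball⟩ := Metric.isOpen_iff.1 (isOpen_discrete {x}) x rfl
  obtain ⟨k, hk⟩ := exists_nat_gt (2 / ε)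
  have h1 : (k : ℝ) < 2 ^ k := by exact_mod_cast k.lt_two_pow_self
  refine ⟨k, fun z hz => ?_⟩
  have h2 : dist z x < ε := by
    rw [dist_comm]
    refine hz.trans ?_
    rw [div_lt_iff₀ (by positivity)]
    rw [div_lt_iff₀ hε] at hk
    nlinarith
  have h3 : z ∈ ({x} : Set M.Y) := hball h2
  rw [Set.mem_singleton_iff] at h3
  exact h3.symm

open Classical in
/-- the isolation exponent -/
def rho (x : M.Y) : ℕ := Nat.find (exists_iso M x)

omit [Infinite M.Y] in
lemma rho_spec (x z : M.Y) (h : dist x z ≤ 1 / 2 ^ rho M x) : x = z := by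
  classical
  refine Nat.find_spec (exists_iso M x) z (h.trans_lt ?_)
  unfold rho
  exact div_lt_div_of_pos_right (by norm_num) (by positivity)

omit [Infinite M.Y] in
lemma nis_eq_zero (i k : ℕ) :
    nis M (Nat.pair i k) = 0 ↔ ∀ z : M.Y, dist (M.c i) z < 2 / 2 ^ k → M.c i = z := by
  unfold nis
  rw [chi_eq_zero]
  simp only [Nat.unpair_pair]
  push Not
  constructor
  · intro h z hz
    obtain ⟨j, rfl⟩ := surj_c M z
    by_contra hne
    have := h j (dist_pos.2 hne)
    linarith
  · intro h j hj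
    by_contra hlt
    rw [not_le] at hlt
    have := h _ hlt
    rw [this, dist_self] at hj
    exact lt_irrefl _ hj

omit [Infinite M.Y] in
lemma ri_rho : RI fun i => rho M (M.c i) := by
  classical
  refine ri_mu (ri_nis M) fun i => ⟨?_, fun n hn => ?_⟩
  · rw [nis_eq_zero]
    exact Nat.find_spec (exists_iso M (M.c i))
  · intro h
    rw [nis_eq_zero] at h
    exact Nat.find_min (exists_iso M (M.c i)) hn h

open Classical in
/-- the first index of the same point -/
def fst (i : ℕ) : ℕ := Nat.find (⟨i, rfl⟩ : ∃ j, M.c j = M.c i)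

omit [Infinite M.Y] [DiscreteTopology M.Y] in
lemma c_fst (i : ℕ) : M.c (fst M i) = M.c i := by
  classical
  exact Nat.find_spec (⟨i, rfl⟩ : ∃ j, M.c j = M.c i)

omit [Infinite M.Y] [DiscreteTopology M.Y] in
lemma fst_congr {i j : ℕ} (h : M.c i = M.c j) : fst M i = fst M j := by
  classical
  unfold fst
  simp only [h]

omit [Infinite M.Y] [DiscreteTopology M.Y] in
lemma fst_fst (i : ℕ) : fst M (fst M i) = fst M i := fst_congr M (c_fst M i)

omit [Infinite M.Y] [DiscreteTopology M.Y] in
lemma ri_fst : RI (fst M) := by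
  classical
  have hf : RI fun z => neq M (Nat.pair z.unpair.2 z.unpair.1) :=
    ri_comp (ri_neq M) (ri_prim (Primrec₂.natPair.comp (Primrec.snd.comp Primrec.unpair)
      (Primrec.fst.comp Primrec.unpair)))
  have hval : ∀ a n, neq M (Nat.pair (Nat.pair a n).unpair.2 (Nat.pair a n).unpair.1) = 0 ↔
      M.c n = M.c a := by
    intro a n
    unfold neq
    rw [chi_eq_zero]
    simp only [Nat.unpair_pair, not_not]
  refine ri_mu hf fun i => ⟨?_, fun n hn => ?_⟩
  · rw [hval]
    exact c_fst M i
  · intro h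
    rw [hval] at h
    exact Nat.find_min (⟨i, rfl⟩ : ∃ j, M.c j = M.c i) hn h

/-- the new indices -/
def Nw (j : ℕ) : Prop := fst M j = j

instance : DecidablePred (Nw M) := fun _ => inferInstanceAs (Decidable (_ = _))

omit [Infinite M.Y] [DiscreteTopology M.Y] in
lemma ri_new : RI fun j => if Nw M j then 1 else 0 := by
  have hF : Primrec₂ fun a b : ℕ => if a = b then 1 else 0 :=
    Primrec.ite (Primrec.eq.comp Primrec.fst Primrec.snd) (Primrec.const 1) (Primrec.const 0)
  have h := ri_comp₂ hF (ri_fst M) (ri_prim Primrec.id)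
  exact h

omit [Infinite M.Y] [DiscreteTopology M.Y] in
lemma ri_cnt : RI (Nat.count (Nw M)) := by
  have h1 : RI fun z => z.unpair.2.unpair.2 + (if Nw M z.unpair.2.unpair.1 then 1 else 0) :=
    ri_comp₂ Primrec.nat_add
      (ri_prim (Primrec.snd.comp (Primrec.unpair.comp (Primrec.snd.comp Primrec.unpair))))
      (ri_comp (ri_new M)
        (ri_prim (Primrec.fst.comp (Primrec.unpair.comp (Primrec.snd.comp Primrec.unpair)))))
  have h0 : RI fun _ => 0 := ri_prim (Primrec.const 0)
  have h2 := ri_comp (ri_rec h0 h1) (ri_prim (Primrec₂.natPair.comp (Primrec.const 0) Primrec.id))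
  have h3 : Nat.count (Nw M) = fun n => Nat.rec (motive := fun _ => ℕ) 0
      (fun y IH => IH + if Nw M y then 1 else 0) n := by
    funext n
    induction n with
    | zero => rfl
    | succ n ih =>
      rw [Nat.count_succ, ih]
  rw [h3]
  simpa only [Nat.unpair_pair, id] using h2

lemma infinite_new : (Set.ofPred (Nw M)).Infinite := by
  intro hfin
  have h1 : (Set.univ : Set M.Y) ⊆ M.c '' (Set.ofPred (Nw M)) := by
    intro x _
    obtain ⟨i, rfl⟩ := surj_c M x
    exact ⟨fst M i, fst_fst M i, c_fst M i⟩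
  exact Set.infinite_univ (Set.Finite.subset (hfin.image _) h1)

lemma ri_nth : RI (Nat.nth (Nw M)) := by
  have hF : RI fun z => if ((if Nw M z.unpair.2 then 1 else 0) = 1 ∧
      Nat.count (Nw M) z.unpair.2 = z.unpair.1) then 0 else 1 := by
    have hG : Primrec₂ fun a b : ℕ => if (a = 1 ∧ b.unpair.1 = b.unpair.2) then 0 else 1 :=
      Primrec.ite ((Primrec.eq.comp Primrec.fst (Primrec.const 1)).and
        (Primrec.eq.comp (Primrec.fst.comp (Primrec.unpair.comp Primrec.snd))
          (Primrec.snd.comp (Primrec.unpair.comp Primrec.snd)))) (Primrec.const 0)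
        (Primrec.const 1)
    have h2 : RI fun z : ℕ => z.unpair.2 := ri_prim (Primrec.snd.comp Primrec.unpair)
    have h := ri_comp₂ hG (ri_comp (ri_new M) h2)
      (ri_pair (ri_comp (ri_cnt M) h2) (ri_prim (Primrec.fst.comp Primrec.unpair)))
    simpa only [Nat.unpair_pair] using h
  refine ri_mu hF fun n => ⟨?_, fun j hj => ?_⟩
  · have h1 : Nw M (Nat.nth (Nw M) n) := Nat.nth_mem_of_infinite (infinite_new M) n
    have h2 := Nat.count_nth_of_infinite (infinite_new M) n
    simp only [Nat.unpair_pair]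
    rw [if_pos h1, if_pos ⟨rfl, h2⟩]
  · simp only [Nat.unpair_pair]
    intro h
    split_ifs at h with h1 h2
    · have h3 := Nat.nth_count h1
      rw [h2.2] at h3
      omega
    · rename_i h4
      simp at h4

/-- the special index of a point -/
def idx (x : M.Y) : ℕ := (surj_c M x).choose

omit [Infinite M.Y] in
lemma c_idx (x : M.Y) : M.c (idx M x) = x := (surj_c M x).choose_spec

/-- the bijection with `ℕ` -/
def EE : M.Y ≃ ℕ where
  toFun x := Nat.count (Nw M) (fst M (idx M x))
  invFun n := M.c (Nat.nth (Nw M) n)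
  left_inv x := by
    simp only
    rw [Nat.nth_count (show Nw M (fst M (idx M x)) from fst_fst M _), c_fst, c_idx]
  right_inv n := by
    simp only
    have h1 : fst M (idx M (M.c (Nat.nth (Nw M) n))) = Nat.nth (Nw M) n := by
      rw [fst_congr M (c_idx M (M.c (Nat.nth (Nw M) n)))]
      exact Nat.nth_mem_of_infinite (infinite_new M) n
    rw [h1, Nat.count_nth_of_infinite (infinite_new M)]

lemma ri_EE : RI fun i => EE M (M.c i) := by
  have h : (fun i => EE M (M.c i)) = fun i => Nat.count (Nw M) (fst M i) := by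
    funext i
    change Nat.count (Nw M) (fst M (idx M (M.c i))) = _
    rw [fst_congr M (c_idx M (M.c i))]
  rw [h]
  exact ri_comp (ri_cnt M) (ri_fst M)

end Data

lemma compMap_EE (M N : CMS) [Infinite M.Y] [DiscreteTopology M.Y] [Infinite N.Y]
    [DiscreteTopology N.Y] : CompMapIn KO M N fun x => (EE N).symm (EE M x) := by
  refine compMap_of (ρ := rho M) (τ := fun x => Nat.nth (Nw N) (EE M x)) (fun i => rfl)
    (fun i => rfl) (fun x => rfl) (rho_spec M) ?_
  exact ri_pair (ri_rho M) (ri_comp (ri_nth N) (ri_EE M))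

/-- The discrete space `ℕ` is categorical relative to the halting set. -/
theorem upper : CatBoth ℕ KO := by
  rintro M N ⟨eM⟩ ⟨eN⟩
  have : DiscreteTopology M.Y := eM.isEmbedding.discreteTopology
  have : DiscreteTopology N.Y := eN.isEmbedding.discreteTopology
  have : Infinite M.Y := eM.toEquiv.infinite_iff.2 inferInstance
  have : Infinite N.Y := eN.toEquiv.infinite_iff.2 inferInstance
  refine ⟨⟨(EE M).trans (EE N).symm, continuous_of_discreteTopology,
    continuous_of_discreteTopology⟩, compMap_EE M N, compMap_EE N M⟩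

end

end Pool.Agent.K9h87.DC
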